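import Pool.Agent.K3h97.Cor.Gen

/-!
# An abstract criterion for Corson compactness
-/

set_option autoImplicit false

namespace Pool.Agent.K3h97.Cor

open Set Cardinal

set_option linter.unusedSectionVars false

variable {F : Type} [TopologicalSpace F] {K : Type} {Γ : K → Type}

/-- the points of `F` in `G` -/
def A (G : Set (F ⊕ K)) : Set F := {f | Sum.inl f ∈ G}

/-- the coordinates which belong to `G` -/
def D (e : (k : K) → F → Γ k → ℝ) (G : Set (F ⊕ K)) : Set (Σ k, Γ k) :=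
  {i | Sum.inr i.1 ∈ G ∧ ∃ f, Sum.inl f ∈ G ∧ e i.1 f i.2 ≠ 0}

/-- the closure of `A G` is mapped injectively into a `Σ`-product -/
def Cors (G : Set (F ⊕ K)) : Prop :=
  ∃ (Γ' : Type) (u : F → Γ' → ℝ), Continuous u ∧ (∀ f, (Function.support (u f)).Countable) ∧
    ∀ f ∈ closure (A G), ∀ g ∈ closure (A G), u f = u g → f = g

theorem A_mono {G H : Set (F ⊕ K)} (h : G ⊆ H) : A G ⊆ A H := fun _ hf => h hf

theorem D_mono (e : (k : K) → F → Γ k → ℝ) {G H : Set (F ⊕ K)} (h : G ⊆ H) : D e G ⊆ D e H :=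
  fun _ ⟨h1, f, h2, h3⟩ => ⟨h h1, f, h h2, h3⟩

theorem D_sUnion (e : (k : K) → F → Γ k → ℝ) {S : Set (Set (F ⊕ K))}
    (hd : DirectedOn (· ⊆ ·) S) {i : Σ k, Γ k} (hi : i ∈ D e (⋃₀ S)) : ∃ H ∈ S, i ∈ D e H := by
  obtain ⟨⟨H, hH, h1⟩, f, ⟨H', hH', h2⟩, h3⟩ := hi
  obtain ⟨H'', hH'', h4, h5⟩ := hd H hH H' hH'
  exact ⟨H'', hH'', h4 h1, f, h5 h2, h3⟩

theorem countable_case {c : Finset (F ⊕ K) → Set (F ⊕ K)} {e : (k : K) → F → Γ k → ℝ}
    (he : ∀ k, Continuous (e k)) (hs : ∀ k f, (Function.support (e k f)).Countable)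
    (H1 : ∀ G, Good c G → ∀ f ∈ closure (A G), ∀ g ∈ closure (A G),
      (∀ i ∈ D e G, e i.1 f i.2 = e i.1 g i.2) → f = g)
    {G : Set (F ⊕ K)} (hG : Good c G) (hGc : G.Countable) : Cors G := by
  have hD : (D e G).Countable := by
    have h1 : (A G).Countable := hGc.preimage Sum.inl_injective
    have h2 : {k : K | (Sum.inr k : F ⊕ K) ∈ G}.Countable := hGc.preimage Sum.inr_injective
    have h3 : (⋃ k ∈ {k : K | (Sum.inr k : F ⊕ K) ∈ G}, ⋃ f ∈ A G,
        (fun γ => (⟨k, γ⟩ : Σ k, Γ k)) '' Function.support (e k f)).Countable :=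
      h2.biUnion fun k _ => h1.biUnion fun f _ => (hs k f).image _
    refine h3.mono ?_
    rintro ⟨k, γ⟩ ⟨hk, f, hf, hne⟩
    simp only [mem_iUnion]
    exact ⟨k, hk, f, hf, γ, hne, rfl⟩
  refine ⟨D e G, fun f i => e i.1.1 f i.1.2, ?_, ?_, ?_⟩
  · exact continuous_pi fun i => (continuous_apply i.1.2).comp (he i.1.1)
  · intro f
    have : Countable (D e G) := hD.to_subtype
    exact Set.to_countable _
  · intro f hf g hg hfg
    exact H1 G hG f hf g hg fun i hi => congrFun hfg ⟨i, hi⟩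

theorem abs_main [CompactSpace F] [T2Space F] {c : Finset (F ⊕ K) → Set (F ⊕ K)}
    {e : (k : K) → F → Γ k → ℝ} (he : ∀ k, Continuous (e k))
    (hs : ∀ k f, (Function.support (e k f)).Countable) (hc : ∀ s, (c s).Countable)
    (FU : ∀ B : Set F, ∀ f ∈ closure B, ∃ B' ⊆ B, B'.Countable ∧ f ∈ closure B')
    (H1 : ∀ G, Good c G → ∀ f ∈ closure (A G), ∀ g ∈ closure (A G),
      (∀ i ∈ D e G, e i.1 f i.2 = e i.1 g i.2) → f = g)
    (H2 : ∀ G, Good c G → ∀ f, ∃ g ∈ closure (A G), ∀ i ∈ D e G, e i.1 g i.2 = e i.1 f i.2) :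
    ∀ G, Good c G → Cors G := by
  classical
  -- the retractions
  have hret : ∀ H : Set (F ⊕ K), ∃ ρ : F → F, Good c H → Continuous ρ ∧
      (∀ f, ρ f ∈ closure (A H)) ∧ ∀ f, ∀ i ∈ D e H, e i.1 (ρ f) i.2 = e i.1 f i.2 := by
    intro H
    by_cases hH : Good c H
    swap
    · exact ⟨id, fun h => absurd h hH⟩
    choose ρ hρ1 hρ2 using H2 H hH
    refine ⟨ρ, fun _ => ⟨?_, hρ1, hρ2⟩⟩
    let p : F → (D e H → ℝ) := fun f i => e i.1.1 f i.1.2
    have hp : Continuous p := continuous_pi fun i => (continuous_apply i.1.2).comp (he i.1.1)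
    let q : closure (A H) → (D e H → ℝ) := fun f => p f.1
    have hq : Continuous q := hp.comp continuous_subtype_val
    have hqi : Function.Injective q := fun f g hfg =>
      Subtype.ext (H1 H hH f.1 f.2 g.1 g.2 fun i hi => congrFun hfg ⟨i, hi⟩)
    have : CompactSpace (closure (A H)) := isCompact_iff_compactSpace.1 isClosed_closure.isCompact
    have hemb := hq.isClosedEmbedding hqi
    let ρ' : F → closure (A H) := fun f => ⟨ρ f, hρ1 f⟩
    have hρ' : Continuous ρ' := by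
      rw [hemb.isInducing.continuous_iff]
      have : q ∘ ρ' = p := by
        funext f i
        exact hρ2 f i.1 i.2
      rw [this]
      exact hp
    exact continuous_subtype_val.comp hρ'
  choose ρ hρ using hret
  -- uniqueness
  have huniq : ∀ H, Good c H → ∀ f, ∀ g ∈ closure (A H), (∀ i ∈ D e H, e i.1 g i.2 = e i.1 f i.2) →
      ρ H f = g := by
    intro H hH f g hg h
    refine H1 H hH _ ((hρ H hH).2.1 f) g hg fun i hi => ?_
    rw [(hρ H hH).2.2 f i hi, h i hi]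
  have hcoord : ∀ H, Good c H → ∀ f g, ρ H f = ρ H g → ∀ i ∈ D e H, e i.1 f i.2 = e i.1 g i.2 := by
    intro H hH f g h i hi
    rw [← (hρ H hH).2.2 f i hi, ← (hρ H hH).2.2 g i hi, h]
  have hcoord' : ∀ H, Good c H → ∀ f g, (∀ i ∈ D e H, e i.1 f i.2 = e i.1 g i.2) →
      ρ H f = ρ H g := by
    intro H hH f g h
    refine huniq H hH f _ ((hρ H hH).2.1 g) fun i hi => ?_
    rw [(hρ H hH).2.2 g i hi, h i hi]
  suffices h : ∀ κ : Cardinal.{0}, ∀ G : Set (F ⊕ K), Good c G → #↥G = κ → Cors G by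
    intro G hG
    exact h _ G hG rfl
  intro κ
  induction κ using WellFoundedLT.induction with
  | ind κ IH =>
  intro G hG hκ
  by_cases hGc : G.Countable
  · exact countable_case he hs H1 hG hGc
  have hGu : ℵ₀ < #↥G := by
    rw [← not_le, Cardinal.le_aleph0_iff_set_countable]
    exact hGc
  -- a short well-ordering of `G`
  obtain ⟨r, hwo, hord⟩ := Cardinal.exists_ord_eq ↥G
  let Zl : ↥G → Set (F ⊕ K) := fun g => Subtype.val '' {h : ↥G | r h g}
  let Zle : ↥G → Set (F ⊕ K) := fun g => insert g.1 (Zl g)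
  let Gl : ↥G → Set (F ⊕ K) := fun g => gen c (Zl g)
  let Ge : ↥G → Set (F ⊕ K) := fun g => gen c (Zle g)
  have hgl : ∀ g, Good c (Gl g) := fun g => good_gen c _
  have hge : ∀ g, Good c (Ge g) := fun g => good_gen c _
  have hZlG : ∀ g, Zl g ⊆ G := by
    rintro g _ ⟨h, _, rfl⟩
    exact h.2
  have hZleG : ∀ g, Zle g ⊆ G := fun g => insert_subset g.2 (hZlG g)
  have hGeG : ∀ g, Ge g ⊆ G := fun g => gen_subset hG (hZleG g)
  have hmem : ∀ g : ↥G, g.1 ∈ Ge g := fun g => subset_gen c _ (mem_insert _ _)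
  have hGlGe : ∀ g, Gl g ⊆ Ge g := fun g => gen_mono (subset_insert _ _)
  have hlt : ∀ g h : ↥G, r h g → Ge h ⊆ Gl g := by
    intro g h hr
    refine gen_mono (insert_subset ⟨h, hr, rfl⟩ ?_)
    rintro _ ⟨h', hr', rfl⟩
    exact ⟨h', _root_.trans hr' hr, rfl⟩
  have hle : ∀ g h : ↥G, (r h g ∨ h = g) → Ge h ⊆ Ge g := by
    rintro g h (hr | rfl)
    · exact (hlt g h hr).trans (hGlGe g)
    · exact subset_rfl
  have htot : ∀ g h : ↥G, Ge g ⊆ Ge h ∨ Ge h ⊆ Ge g := by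
    intro g h
    rcases trichotomous_of r g h with hr | hr | hr
    · exact Or.inl (hle _ _ (Or.inl hr))
    · exact Or.inl (by rw [hr])
    · exact Or.inr (hle _ _ (Or.inl hr))
  have hcard : ∀ g, #↥(Ge g) < κ := by
    intro g
    rw [← hκ]
    refine (mk_gen_le hc _).trans_lt (max_lt ?_ hGu)
    have h1 : #↥(Zl g) < #↥G := by
      refine lt_of_le_of_lt mk_image_le ?_
      have := Cardinal.card_typein_lt g hord
      rwa [Ordinal.card_typein] at this
    refine lt_of_le_of_lt (mk_insert_le) ?_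
    exact add_lt_of_lt hGu.le h1 (lt_trans one_lt_aleph0 hGu)
  -- the induction hypothesis
  have hIH : ∀ g, Cors (Ge g) := fun g => IH _ (hcard g) (Ge g) (hge g) rfl
  choose Γ' u hu1 hu2 hu3 using hIH
  have hG0 : Good c (gen c ∅) := good_gen c _
  have h0c : (gen c (∅ : Set (F ⊕ K))).Countable := by
    rw [← Cardinal.le_aleph0_iff_set_countable]
    exact (mk_gen_le hc ∅).trans (by simp)
  obtain ⟨Γ₀, u₀, h01, h02, h03⟩ := countable_case he hs H1 hG0 h0c
  let U : F → (Γ₀ ⊕ (Σ g, Γ' g)) → ℝ := fun f i => Sum.elim (fun γ => u₀ (ρ (gen c ∅) f) γ)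
    (fun i => u i.1 (ρ (Ge i.1) f) i.2 - u i.1 (ρ (Gl i.1) f) i.2) i
  refine ⟨Γ₀ ⊕ (Σ g, Γ' g), U, ?_, ?_, ?_⟩
  · refine continuous_pi fun i => ?_
    rcases i with γ | ⟨g, γ⟩
    · exact (continuous_apply γ).comp (h01.comp (hρ _ hG0).1)
    · exact ((continuous_apply γ).comp ((hu1 g).comp (hρ _ (hge g)).1)).sub
        ((continuous_apply γ).comp ((hu1 g).comp (hρ _ (hgl g)).1))
  · intro f
    -- only countably many `g` matter
    have hB : {g : ↥G | ρ (Ge g) f ≠ ρ (Gl g) f}.Countable := by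
      by_contra hunc
      obtain ⟨B₁, hB₁, hB₁u, hB₁c⟩ : ∃ B₁ : Set ↥G, B₁ ⊆ {g : ↥G | ρ (Ge g) f ≠ ρ (Gl g) f} ∧
          ¬ B₁.Countable ∧ ∀ b ∈ B₁, {b' | b' ∈ B₁ ∧ r b' b}.Countable := by
        by_cases hall : ∀ b ∈ {g : ↥G | ρ (Ge g) f ≠ ρ (Gl g) f},
            {b' | b' ∈ {g : ↥G | ρ (Ge g) f ≠ ρ (Gl g) f} ∧ r b' b}.Countable
        · exact ⟨_, subset_rfl, hunc, hall⟩
        · push Not at hall
          obtain ⟨b₀, hb₀, hmin⟩ := (IsWellFounded.wf (r := r)).has_min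
            {b | b ∈ {g : ↥G | ρ (Ge g) f ≠ ρ (Gl g) f} ∧
              ¬ {b' | b' ∈ {g : ↥G | ρ (Ge g) f ≠ ρ (Gl g) f} ∧ r b' b}.Countable} hall
          refine ⟨{b' | b' ∈ {g : ↥G | ρ (Ge g) f ≠ ρ (Gl g) f} ∧ r b' b₀}, fun b hb => hb.1, hb₀.2,
            fun b hb => ?_⟩
          by_contra hb'
          refine hmin b ⟨hb.1, fun hc' => hb' ?_⟩ hb.2
          have hc'' : {b' | b' ∈ {g : ↥G | ρ (Ge g) f ≠ ρ (Gl g) f} ∧ r b' b}.Countable := hc'
          refine hc''.mono ?_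
          intro x hx
          exact ⟨hx.1.1, hx.2⟩
      have hne : B₁.Nonempty := by
        rw [Set.nonempty_iff_ne_empty]
        rintro rfl
        exact hB₁u Set.countable_empty
      have hdir : DirectedOn (· ⊆ ·) (Ge '' B₁) := by
        rintro _ ⟨b, hb, rfl⟩ _ ⟨b', hb', rfl⟩
        rcases htot b b' with h | h
        · exact ⟨_, ⟨b', hb', rfl⟩, h, subset_rfl⟩
        · exact ⟨_, ⟨b, hb, rfl⟩, subset_rfl, h⟩
      have hgood : Good c (⋃₀ (Ge '' B₁)) := good_sUnion (hne.image _) hdir (by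
        rintro _ ⟨b, _, rfl⟩
        exact hge b)
      clear_value U
      obtain ⟨A', hA', hA'c, hfA'⟩ := FU _ _ ((hρ _ hgood).2.1 f)
      have hch : ∀ a ∈ A', ∃ b ∈ B₁, (Sum.inl a : F ⊕ K) ∈ Ge b := by
        intro a ha
        obtain ⟨_, ⟨b, hb, rfl⟩, h⟩ := hA' ha
        exact ⟨b, hb, h⟩
      have hGne : Nonempty ↥G := ⟨hne.some⟩
      choose! b hb1 hb2 using hch
      obtain ⟨b₀, hb₀, hb₀'⟩ : ∃ b₀ ∈ B₁, ∀ a ∈ A', r (b a) b₀ := by
        by_contra hcon
        push Not at hcon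
        refine hB₁u (Countable.mono (s₂ := ⋃ a ∈ A', insert (b a) {b' | b' ∈ B₁ ∧ r b' (b a)}) ?_ ?_)
        · intro b₁ hb₁
          obtain ⟨a, ha, hab⟩ := hcon b₁ hb₁
          simp only [mem_iUnion]
          refine ⟨a, ha, ?_⟩
          rcases trichotomous_of r (b a) b₁ with h | h | h
          · exact absurd h hab
          · left; exact h.symm
          · right; exact ⟨hb₁, h⟩
        · exact hA'c.biUnion fun a ha => (hB₁c (b a) (hb1 a ha)).insert _
      have hcl : ρ (⋃₀ (Ge '' B₁)) f ∈ closure (A (Gl b₀)) := by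
        refine closure_mono ?_ hfA'
        intro a ha
        exact hlt _ _ (hb₀' a ha) (hb2 a ha)
      have hsub1 : Ge b₀ ⊆ ⋃₀ (Ge '' B₁) := subset_sUnion_of_mem ⟨b₀, hb₀, rfl⟩
      have e1 : ρ (Gl b₀) f = ρ (⋃₀ (Ge '' B₁)) f :=
        huniq _ (hgl b₀) f _ hcl fun i hi =>
          (hρ _ hgood).2.2 f i (D_mono e ((hGlGe b₀).trans hsub1) hi)
      have e2 : ρ (Ge b₀) f = ρ (⋃₀ (Ge '' B₁)) f :=
        huniq _ (hge b₀) f _ (closure_mono (A_mono (hGlGe b₀)) hcl) fun i hi =>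
          (hρ _ hgood).2.2 f i (D_mono e hsub1 hi)
      exact hB₁ hb₀ (e2.trans e1.symm)
    have hsub : Function.support (U f) ⊆ Sum.inl '' Function.support (u₀ (ρ (gen c ∅) f)) ∪
        ⋃ g ∈ {g : ↥G | ρ (Ge g) f ≠ ρ (Gl g) f}, (fun γ => Sum.inr (⟨g, γ⟩ : Σ g, Γ' g)) ''
          (Function.support (u g (ρ (Ge g) f)) ∪ Function.support (u g (ρ (Gl g) f))) := by
      rintro (γ | ⟨g, γ⟩) hi
      · left
        exact ⟨γ, hi, rfl⟩
      · right
        have hi' : u g (ρ (Ge g) f) γ - u g (ρ (Gl g) f) γ ≠ 0 := hi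
        simp only [mem_iUnion]
        refine ⟨g, ?_, γ, ?_, rfl⟩
        · intro h
          rw [h, sub_self] at hi'
          exact hi' rfl
        · by_contra hno
          simp only [mem_union, Function.mem_support, not_or, not_not] at hno
          rw [hno.1, hno.2, sub_zero] at hi'
          exact hi' rfl
    refine Countable.mono hsub ?_
    refine ((h02 _).image _).union (hB.biUnion fun g _ => ?_)
    exact ((hu2 g _).union (hu2 g _)).image _
  · intro f hf f' hf' hff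
    have h0 : ρ (gen c ∅) f = ρ (gen c ∅) f' :=
      h03 _ ((hρ _ hG0).2.1 f) _ ((hρ _ hG0).2.1 f') (by
        funext γ
        exact congrFun hff (Sum.inl γ))
    have hind : ∀ g : ↥G, ρ (Ge g) f = ρ (Ge g) f' := by
      intro g
      induction g using (IsWellFounded.wf (r := r)).induction with
      | _ g ih =>
      have hl : ρ (Gl g) f = ρ (Gl g) f' := by
        by_cases hne : {h : ↥G | r h g}.Nonempty
        · refine hcoord' _ (hgl g) f f' fun i hi => ?_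
          have hdir : DirectedOn (· ⊆ ·) (Ge '' {h : ↥G | r h g}) := by
            rintro _ ⟨b, hb, rfl⟩ _ ⟨b', hb', rfl⟩
            rcases htot b b' with h | h
            · exact ⟨_, ⟨b', hb', rfl⟩, h, subset_rfl⟩
            · exact ⟨_, ⟨b, hb, rfl⟩, subset_rfl, h⟩
          have hgood : Good c (⋃₀ (Ge '' {h : ↥G | r h g})) := good_sUnion (hne.image _) hdir (by
            rintro _ ⟨b, _, rfl⟩
            exact hge b)
          have hsub : Gl g ⊆ ⋃₀ (Ge '' {h : ↥G | r h g}) := by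
            refine gen_subset hgood ?_
            rintro _ ⟨h, hr, rfl⟩
            exact ⟨_, ⟨h, hr, rfl⟩, hmem h⟩
          obtain ⟨_, ⟨h, hr, rfl⟩, hi'⟩ := D_sUnion e hdir (D_mono e hsub hi)
          exact hcoord _ (hge h) f f' (ih h hr) i hi'
        · have hz : Zl g = ∅ := by
            rw [Set.not_nonempty_iff_eq_empty] at hne
            change Subtype.val '' {h : ↥G | r h g} = ∅
            rw [hne, image_empty]
          change ρ (gen c (Zl g)) f = ρ (gen c (Zl g)) f'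
          rw [hz]
          exact h0
      refine hu3 g _ ((hρ _ (hge g)).2.1 f) _ ((hρ _ (hge g)).2.1 f') ?_
      funext γ
      have h1 : u g (ρ (Ge g) f) γ - u g (ρ (Gl g) f) γ =
          u g (ρ (Ge g) f') γ - u g (ρ (Gl g) f') γ := congrFun hff (Sum.inr ⟨g, γ⟩)
      rw [hl] at h1
      linarith
    refine H1 G hG f hf f' hf' fun i hi => ?_
    have hdir : DirectedOn (· ⊆ ·) (range Ge) := by
      rintro _ ⟨b, rfl⟩ _ ⟨b', rfl⟩
      rcases htot b b' with h | h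
      · exact ⟨_, ⟨b', rfl⟩, h, subset_rfl⟩
      · exact ⟨_, ⟨b, rfl⟩, subset_rfl, h⟩
    have hsub : G ⊆ ⋃₀ (range Ge) := fun g hg => ⟨_, ⟨⟨g, hg⟩, rfl⟩, hmem ⟨g, hg⟩⟩
    obtain ⟨_, ⟨g, rfl⟩, hi'⟩ := D_sUnion e hdir (D_mono e hsub hi)
    exact hcoord _ (hge g) f f' (hind g) i hi'

end Pool.Agent.K3h97.Cor
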