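import Pool.Agent.K3h97.Cor.Abs

/-!
# The abstract criterion with fewer hypotheses
-/

set_option autoImplicit false

namespace Pool.Agent.K3h97.Cor

open Set
open Cardinal hiding univ

set_option linter.unusedSectionVars false

variable {F : Type} [TopologicalSpace F] {K : Type} {Γ : K → Type}

/-- the coordinates in a set `D'` -/
def pr (e : (k : K) → F → Γ k → ℝ) (D' : Set (Σ k, Γ k)) : F → (D' → ℝ) :=
  fun f i => e i.1.1 f i.1.2

theorem pr_continuous {e : (k : K) → F → Γ k → ℝ} (he : ∀ k, Continuous (e k))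
    (D' : Set (Σ k, Γ k)) : Continuous (pr e D') :=
  continuous_pi fun i => (continuous_apply i.1.2).comp (he i.1.1)

theorem D_countable {e : (k : K) → F → Γ k → ℝ}
    (hs : ∀ k f, (Function.support (e k f)).Countable) {G : Set (F ⊕ K)} (hGc : G.Countable) :
    (D e G).Countable := by
  have h1 : (A G).Countable := hGc.preimage Sum.inl_injective
  have h2 : {k : K | (Sum.inr k : F ⊕ K) ∈ G}.Countable := hGc.preimage Sum.inr_injective
  have h3 : (⋃ k ∈ {k : K | (Sum.inr k : F ⊕ K) ∈ G}, ⋃ f ∈ A G,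
      (fun γ => (⟨k, γ⟩ : Σ k, Γ k)) '' Function.support (e k f)).Countable :=
    h2.biUnion fun k _ => h1.biUnion fun f _ => (hs k f).image _
  refine h3.mono ?_
  rintro ⟨k, γ⟩ ⟨hk, f, hf, hne⟩
  simp only [mem_iUnion]
  exact ⟨k, hk, f, hf, γ, hne, rfl⟩

theorem dense_sub {α β : Type} [TopologicalSpace α] [SecondCountableTopology α] (p : β → α)
    (B : Set β) : ∃ B' ⊆ B, B'.Countable ∧ p '' B ⊆ closure (p '' B') := by
  obtain ⟨t, ht, htd⟩ := TopologicalSpace.exists_countable_dense ↥(p '' B)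
  rw [Subtype.dense_iff] at htd
  have hch : ∀ y : ↥(p '' B), ∃ b ∈ B, p b = y.1 := fun y => y.2
  choose b hb hpb using hch
  refine ⟨b '' t, ?_, ht.image _, ?_⟩
  · rintro _ ⟨y, _, rfl⟩
    exact hb y
  · refine htd.trans (closure_mono ?_)
    rintro _ ⟨y, hy, rfl⟩
    exact ⟨b y, ⟨y, hy, rfl⟩, hpb y⟩

theorem fin_dense {e : (k : K) → F → Γ k → ℝ} {G : Set (F ⊕ K)} {B : Set F} {f : F}
    (h : ∀ s : Finset (F ⊕ K), (↑s : Set (F ⊕ K)) ⊆ G →
      pr e (D e ↑s) f ∈ closure (pr e (D e ↑s) '' B)) :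
    pr e (D e G) f ∈ closure (pr e (D e G) '' B) := by
  classical
  rw [mem_closure_iff]
  intro O hO hf
  rw [isOpen_pi_iff] at hO
  obtain ⟨I, u, hu, hsub⟩ := hO _ hf
  -- witnesses
  have hw : ∀ i : D e G, ∃ f', (Sum.inl f' : F ⊕ K) ∈ G ∧ e i.1.1 f' i.1.2 ≠ 0 := fun i => i.2.2
  choose w hw1 hw2 using hw
  let s : Finset (F ⊕ K) := I.image (fun i => Sum.inr i.1.1) ∪ I.image (fun i => Sum.inl (w i))
  have hsG : (↑s : Set (F ⊕ K)) ⊆ G := by
    intro t ht
    simp only [s, Finset.coe_union, Finset.coe_image, mem_union, mem_image, Finset.mem_coe] at ht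
    rcases ht with ⟨i, _, rfl⟩ | ⟨i, _, rfl⟩
    · exact i.2.1
    · exact hw1 i
  have hID : ∀ i ∈ I, i.1 ∈ D e (↑s : Set (F ⊕ K)) := by
    intro i hi
    refine ⟨?_, w i, ?_, hw2 i⟩
    · simp only [s, Finset.coe_union, Finset.coe_image, mem_union, mem_image, Finset.mem_coe]
      exact Or.inl ⟨i, hi, rfl⟩
    · simp only [s, Finset.coe_union, Finset.coe_image, mem_union, mem_image, Finset.mem_coe]
      exact Or.inr ⟨i, hi, rfl⟩
  have h1 := h s hsG
  rw [mem_closure_iff] at h1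
  have hO' : IsOpen {z : D e (↑s : Set (F ⊕ K)) → ℝ | ∀ i : I, z ⟨i.1.1, hID i.1 i.2⟩ ∈ u i.1} := by
    have : {z : D e (↑s : Set (F ⊕ K)) → ℝ | ∀ i : I, z ⟨i.1.1, hID i.1 i.2⟩ ∈ u i.1} =
        ⋂ i : I, {z : D e (↑s : Set (F ⊕ K)) → ℝ | z ⟨i.1.1, hID i.1 i.2⟩ ∈ u i.1} := by
      ext z
      simp
    rw [this]
    exact isOpen_iInter_of_finite fun i => (hu i.1 i.2).1.preimage (continuous_apply _)
  obtain ⟨_, hz, b, hb, rfl⟩ := h1 _ hO' (fun i => (hu i.1 i.2).2)
  exact ⟨pr e (D e G) b, hsub fun i hi => hz ⟨i, hi⟩, b, hb, rfl⟩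

theorem lift_closure [CompactSpace F] {e : (k : K) → F → Γ k → ℝ}
    (he : ∀ k, Continuous (e k)) {D' : Set (Σ k, Γ k)} {B : Set F} {f : F}
    (h : pr e D' f ∈ closure (pr e D' '' B)) : ∃ g ∈ closure B, pr e D' g = pr e D' f := by
  have hc : IsClosed (pr e D' '' closure B) :=
    (isClosed_closure.isCompact.image (pr_continuous he D')).isClosed
  exact closure_minimal (image_mono subset_closure) hc h

theorem corson_of [CompactSpace F] [T2Space F] {e : (k : K) → F → Γ k → ℝ}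
    (he : ∀ k, Continuous (e k)) (hs : ∀ k f, (Function.support (e k f)).Countable)
    (c₁ : Finset (F ⊕ K) → Set K) (hc₁ : ∀ s, (c₁ s).Countable)
    (H1 : ∀ G : Set (F ⊕ K), (∀ s : Finset (F ⊕ K), (↑s : Set (F ⊕ K)) ⊆ G →
        ∀ k ∈ c₁ s, Sum.inr k ∈ G) →
      ∀ f ∈ closure (A G), ∀ g ∈ closure (A G),
      (∀ i ∈ D e G, e i.1 f i.2 = e i.1 g i.2) → f = g) :
    ∃ (Γ' : Type) (u : F → Γ' → ℝ), Topology.IsEmbedding u ∧
      ∀ f, (Function.support (u f)).Countable := by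
  classical
  have hcD : ∀ s : Finset (F ⊕ K), Countable (D e (↑s : Set (F ⊕ K))) := fun s =>
    (D_countable hs s.finite_toSet.countable).to_subtype
  -- dense sets
  have hdense : ∀ (s : Finset (F ⊕ K)) (B : Set F), ∃ B' ⊆ B, B'.Countable ∧
      pr e (D e ↑s) '' B ⊆ closure (pr e (D e ↑s) '' B') := by
    intro s B
    have := hcD s
    exact dense_sub _ B
  choose β hβ1 hβ2 hβ3 using hdense
  let c : Finset (F ⊕ K) → Set (F ⊕ K) := fun s => Sum.inr '' c₁ s ∪ Sum.inl '' β s univ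
  have hc : ∀ s, (c s).Countable := fun s => ((hc₁ s).image _).union ((hβ2 s univ).image _)
  have hgood1 : ∀ G, Good c G → ∀ s : Finset (F ⊕ K), (↑s : Set (F ⊕ K)) ⊆ G →
      ∀ k ∈ c₁ s, Sum.inr k ∈ G := fun G hG s hsG k hk => hG s hsG (Or.inl ⟨k, hk, rfl⟩)
  have H1' : ∀ G, Good c G → ∀ f ∈ closure (A G), ∀ g ∈ closure (A G),
      (∀ i ∈ D e G, e i.1 f i.2 = e i.1 g i.2) → f = g := fun G hG => H1 G (hgood1 G hG)
  have H2 : ∀ G, Good c G → ∀ f, ∃ g ∈ closure (A G),
      ∀ i ∈ D e G, e i.1 g i.2 = e i.1 f i.2 := by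
    intro G hG f
    have h1 : pr e (D e G) f ∈ closure (pr e (D e G) '' A G) := by
      refine fin_dense fun s hsG => ?_
      have h2 : β s univ ⊆ A G := fun a ha => hG s hsG (Or.inr ⟨a, ha, rfl⟩)
      exact closure_mono (image_mono h2) (hβ3 s univ ⟨f, mem_univ _, rfl⟩)
    obtain ⟨g, hg, hgf⟩ := lift_closure he h1
    exact ⟨g, hg, fun i hi => congrFun hgf ⟨i, hi⟩⟩
  have FU : ∀ B : Set F, ∀ f ∈ closure B, ∃ B' ⊆ B, B'.Countable ∧ f ∈ closure B' := by
    intro B f hf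
    let c' : Finset (F ⊕ K) → Set (F ⊕ K) := fun s => Sum.inr '' c₁ s ∪ Sum.inl '' β s B
    have hc' : ∀ s, (c' s).Countable := fun s => ((hc₁ s).image _).union ((hβ2 s B).image _)
    let G := gen c' {Sum.inl f}
    have hG : Good c' G := good_gen c' _
    have hGc : G.Countable := by
      rw [← Cardinal.le_aleph0_iff_set_countable]
      exact (mk_gen_le hc' _).trans (by simp)
    have hfG : f ∈ A G := subset_gen c' {Sum.inl f} rfl
    have hB'c : (B ∩ A G).Countable := (hGc.preimage Sum.inl_injective).mono inter_subset_right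
    refine ⟨B ∩ A G, inter_subset_left, hB'c, ?_⟩
    have h1 : pr e (D e G) f ∈ closure (pr e (D e G) '' (B ∩ A G)) := by
      refine fin_dense fun s hsG => ?_
      have h2 : β s B ⊆ B ∩ A G := fun a ha => ⟨hβ1 s B ha, hG s hsG (Or.inr ⟨a, ha, rfl⟩)⟩
      refine closure_mono (image_mono h2) ?_
      have h3 : pr e (D e ↑s) f ∈ closure (pr e (D e ↑s) '' B) :=
        image_closure_subset_closure_image (pr_continuous he _) ⟨f, hf, rfl⟩
      exact closure_minimal (hβ3 s B) isClosed_closure h3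
    obtain ⟨g, hg, hgf⟩ := lift_closure he h1
    have h4 : g = f := H1 G (fun s hsG k hk => hG s hsG (Or.inl ⟨k, hk, rfl⟩)) g
      (closure_mono inter_subset_right hg) f (subset_closure hfG)
      (fun i hi => congrFun hgf ⟨i, hi⟩)
    rw [← h4]
    exact hg
  obtain ⟨Γ', u, hu1, hu2, hu3⟩ := abs_main he hs hc FU H1' H2 univ (fun s _ => subset_univ _)
  refine ⟨Γ', u, ?_, hu2⟩
  have hinj : Function.Injective u := by
    intro f g hfg
    have hA : closure (A (univ : Set (F ⊕ K))) = univ := by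
      have : A (univ : Set (F ⊕ K)) = univ := eq_univ_of_forall fun f => mem_univ _
      rw [this, closure_univ]
    exact hu3 f (by rw [hA]; trivial) g (by rw [hA]; trivial) hfg
  exact (hu1.isClosedEmbedding hinj).isEmbedding

end Pool.Agent.K3h97.Cor
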