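import Mathlib

/-!
# Continuous metrizable images of spaces `X` such that all compact subspaces of `C_p(X)` are Corson
-/

set_option autoImplicit false

namespace Pool.Agent.K3h97.Cor

open Set

/-- a continuous map of a cube into a `Σ`-product identifies the top point with a point of
countable support -/
theorem cube {I Γ : Type} (E : (I → Bool) → Γ → ℝ) (hE : Continuous E)
    (hs : ∀ t, (Function.support (E t)).Countable) :
    ∃ J : Set I, J.Countable ∧ ∀ t : I → Bool, (∀ i, t i = true ↔ i ∈ J) →
      E t = E (fun _ => true) := by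
  classical
  let one : I → Bool := fun _ => true
  -- countable sets of coordinates
  have h1 : ∀ (γ : Γ) (n : ℕ), ∃ N : Finset I, ∀ z : I → Bool, (∀ i ∈ N, z i = true) →
      |E z γ - E one γ| < 1 / ((n : ℝ) + 1) := by
    intro γ n
    have hcont : Continuous fun z => |E z γ - E one γ| :=
      (((continuous_apply γ).comp hE).sub continuous_const).abs
    have hopen : IsOpen {z : I → Bool | |E z γ - E one γ| < 1 / ((n : ℝ) + 1)} :=
      isOpen_lt hcont continuous_const
    rw [isOpen_pi_iff] at hopen
    obtain ⟨N, u, hu, hsub⟩ := hopen one (by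
      change |E one γ - E one γ| < _
      rw [sub_self, abs_zero]
      positivity)
    refine ⟨N, fun z hz => hsub fun i hi => ?_⟩
    have h2 : z i = one i := hz i hi
    rw [h2]
    exact (hu i hi).2
  choose N hN using h1
  have h2 : ∀ (γ : Γ) (z : I → Bool), (∀ n, ∀ i ∈ N γ n, z i = true) → E z γ = E one γ := by
    intro γ z hz
    have h3 : |E z γ - E one γ| ≤ 0 := by
      refine le_of_forall_pos_le_add fun ε hε => ?_
      obtain ⟨n, hn⟩ := exists_nat_one_div_lt hε
      rw [zero_add]
      exact ((hN γ n z (hz n)).trans hn).le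
    exact sub_eq_zero.1 (abs_nonpos_iff.1 h3)
  let ind : Set I → I → Bool := fun J i => decide (i ∈ J)
  let J : ℕ → Set I := fun n => Nat.rec ∅ (fun _ J => J ∪
    ⋃ γ ∈ Function.support (E (ind J)) ∪ Function.support (E one), ⋃ n, (↑(N γ n) : Set I)) n
  have hJs : ∀ n, J (n + 1) = J n ∪
    ⋃ γ ∈ Function.support (E (ind (J n))) ∪ Function.support (E one), ⋃ n, (↑(N γ n) : Set I) :=
    fun n => rfl
  have hJc : ∀ n, (J n).Countable := by
    intro n
    induction n with
    | zero => exact countable_empty
    | succ n ih =>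
      rw [hJs]
      refine ih.union (((hs _).union (hs _)).biUnion fun γ _ => ?_)
      exact countable_iUnion fun n => (N γ n).countable_toSet
  have hJmono : ∀ m n, m ≤ n → J m ⊆ J n := by
    intro m n hmn
    induction n, hmn using Nat.le_induction with
    | base => exact subset_rfl
    | succ n _ ih => rw [hJs]; exact ih.trans subset_union_left
  refine ⟨⋃ n, J n, countable_iUnion hJc, ?_⟩
  intro t ht
  funext γ
  change E t γ = E one γ
  by_cases hγ : γ ∈ Function.support (E one) ∪ ⋃ n, Function.support (E (ind (J n)))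
  · refine h2 γ t fun n i hi => ?_
    rw [ht]
    have hsub : ∀ m, γ ∈ Function.support (E (ind (J m))) ∪ Function.support (E one) →
        i ∈ J (m + 1) := by
      intro m hm
      rw [hJs]
      right
      simp only [mem_iUnion]
      exact ⟨γ, hm, n, hi⟩
    rcases hγ with h | h
    · exact mem_iUnion.2 ⟨1, hsub 0 (Or.inr h)⟩
    · obtain ⟨m, hm⟩ := mem_iUnion.1 h
      exact mem_iUnion.2 ⟨m + 1, hsub m (Or.inl hm)⟩
  · simp only [mem_union, mem_iUnion, Function.mem_support, not_or, not_exists, not_not] at hγ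
    rw [hγ.1]
    -- `ind (J n)` converges to `t`
    have hlim : Filter.Tendsto (fun n => ind (J n)) Filter.atTop (nhds t) := by
      rw [tendsto_pi_nhds]
      intro i
      have key : ∀ᶠ n in Filter.atTop, ind (J n) i = t i := by
        by_cases hi : i ∈ ⋃ n, J n
        · obtain ⟨m, hm⟩ := mem_iUnion.1 hi
          filter_upwards [Filter.eventually_ge_atTop m] with n hn
          have h4 : i ∈ J n := hJmono m n hn hm
          have h5 : ind (J n) i = true := by simp [ind, h4]
          rw [(ht i).2 hi, h5]
        · refine Filter.Eventually.of_forall fun n => ?_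
          have h3 : t i = false := by
            rw [← Bool.not_eq_true, ht]
            exact hi
          have h4 : i ∉ J n := fun h => hi (mem_iUnion.2 ⟨n, h⟩)
          have h5 : ind (J n) i = false := by simp [ind, h4]
          rw [h3, h5]
      exact tendsto_const_nhds.congr' (key.mono fun n hn => hn.symm)
    have hlim2 := (((continuous_apply γ).comp hE).tendsto t).comp hlim
    have hlim3 : Filter.Tendsto (fun _ : ℕ => (0 : ℝ)) Filter.atTop (nhds (E t γ)) :=
      hlim2.congr fun n => hγ.2 n
    exact tendsto_nhds_unique hlim3 tendsto_const_nhds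

/-- a set all of whose uniformly separated subsets are countable is separable -/
theorem separable_of_separated {E : Type} [PseudoMetricSpace E] {X : Type} (y : X → E)
    (h : ∀ ε > 0, ∀ I : Set X, (∀ a ∈ I, ∀ b ∈ I, a ≠ b → ε ≤ dist (y a) (y b)) → I.Countable) :
    ∃ t : Set X, t.Countable ∧ ∀ x, y x ∈ closure (y '' t) := by
  have hM : ∀ n : ℕ, ∃ M : Set X, M.Countable ∧
      ∀ x, ∃ a ∈ M, dist (y x) (y a) < 1 / ((n : ℝ) + 1) := by
    intro n
    have hpos : (0 : ℝ) < 1 / ((n : ℝ) + 1) := by positivity
    obtain ⟨M, -, hM⟩ := zorn_subset_nonempty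
      {M : Set X | ∀ a ∈ M, ∀ b ∈ M, a ≠ b → 1 / ((n : ℝ) + 1) ≤ dist (y a) (y b)} (by
        intro c hc hchain _
        refine ⟨⋃₀ c, ?_, fun s hs => subset_sUnion_of_mem hs⟩
        rintro a ⟨M, hM, ha⟩ b ⟨M', hM', hb⟩ hab
        rcases hchain.total hM hM' with h | h
        · exact hc hM' a (h ha) b hb hab
        · exact hc hM a ha b (h hb) hab) ∅ (by simp)
    refine ⟨M, h _ hpos M hM.prop, fun x => ?_⟩
    by_contra hcon
    push Not at hcon
    have hxM : x ∉ M := fun hx => by
      have := hcon x hx
      rw [dist_self] at this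
      linarith
    refine hxM (hM.le_of_ge (y := insert x M) ?_ (subset_insert _ _) (mem_insert _ _))
    rintro a (rfl | ha) b (rfl | hb) hab
    · exact absurd rfl hab
    · exact hcon b hb
    · rw [dist_comm]
      exact hcon a ha
    · exact hM.prop a ha b hb hab
  choose M hMc hM using hM
  refine ⟨⋃ n, M n, countable_iUnion hMc, fun x => ?_⟩
  rw [Metric.mem_closure_iff]
  intro ε hε
  obtain ⟨n, hn⟩ := exists_nat_one_div_lt hε
  obtain ⟨a, ha, hxa⟩ := hM n x
  exact ⟨y a, ⟨a, mem_iUnion.2 ⟨n, ha⟩, rfl⟩, hxa.trans hn⟩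

/-- If all compact subspaces of `C_p(X)` are Corson then all continuous images of `X` in metric
spaces are separable. -/
theorem metric_image_separable {X : Type} [TopologicalSpace X]
    (hX : ∀ S : Set (X → ℝ), (∀ f ∈ S, Continuous f) → IsCompact S →
        ∃ (Γ : Type) (e : S → (Γ → ℝ)), Topology.IsEmbedding e ∧
          ∀ s, (Function.support (e s)).Countable)
    {E : Type} [PseudoMetricSpace E] (y : X → E) (hy : Continuous y) :
    ∃ t : Set X, t.Countable ∧ ∀ x, y x ∈ closure (y '' t) := by
  classical
  refine separable_of_separated y fun ε hε I hI => ?_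
  by_contra hunc
  have hne : I.Nonempty := by
    rw [nonempty_iff_ne_empty]
    rintro rfl
    exact hunc countable_empty
  obtain ⟨a₀, ha₀⟩ := hne
  let Ts : (↥I → Bool) → Set E := fun t => {z | ∃ a : ↥I, (a.1 = a₀ ∨ t a = true) ∧ z = y a.1}
  have hTs : ∀ t, (Ts t).Nonempty := fun t => ⟨y a₀, ⟨a₀, ha₀⟩, Or.inl rfl, rfl⟩
  let Φ : (↥I → Bool) → X → ℝ := fun t x => max 0 (1 - 3 / ε * Metric.infDist (y x) (Ts t))
  have hΦx : ∀ t, Continuous (Φ t) := by
    intro t
    exact continuous_const.max (continuous_const.sub (continuous_const.mul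
      ((Metric.continuous_infDist_pt _).comp hy)))
  have h3ε : 0 < 3 / ε := by positivity
  have hzero : ∀ t x, (∀ a : ↥I, (a.1 = a₀ ∨ t a = true) → ε / 3 ≤ dist (y x) (y a.1)) →
      Φ t x = 0 := by
    intro t x h
    have h1 : ε / 3 ≤ Metric.infDist (y x) (Ts t) := by
      rw [Metric.le_infDist (hTs t)]
      rintro _ ⟨a, ha, rfl⟩
      exact h a ha
    have h2 : 1 ≤ 3 / ε * Metric.infDist (y x) (Ts t) := by
      have := mul_le_mul_of_nonneg_left h1 h3ε.le
      have e1 : 3 / ε * (ε / 3) = 1 := by field_simp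
      linarith
    exact max_eq_left (by linarith)
  have hΦt : Continuous Φ := by
    refine continuous_pi fun x => ?_
    by_cases hex : ∃ a : ↥I, dist (y x) (y a.1) < ε / 3
    · obtain ⟨a₁, ha₁⟩ := hex
      have hfar : ∀ a : ↥I, a ≠ a₁ → ε / 3 ≤ dist (y x) (y a.1) := by
        intro a ha
        have h1 := hI a.1 a.2 a₁.1 a₁.2 (fun h => ha (Subtype.ext h))
        have h2 := dist_triangle_left (y a.1) (y a₁.1) (y x)
        linarith
      have hval : ∀ t, Φ t x = if a₁.1 = a₀ ∨ t a₁ = true then
          max 0 (1 - 3 / ε * dist (y x) (y a₁.1)) else 0 := by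
        intro t
        split_ifs with hc
        · have h1 : Metric.infDist (y x) (Ts t) = dist (y x) (y a₁.1) := by
            refine le_antisymm (Metric.infDist_le_dist_of_mem ⟨a₁, hc, rfl⟩) ?_
            rw [Metric.le_infDist (hTs t)]
            rintro _ ⟨a, ha, rfl⟩
            by_cases haa : a = a₁
            · rw [haa]
            · exact ha₁.le.trans (hfar a haa)
          change max 0 (1 - 3 / ε * Metric.infDist (y x) (Ts t)) = _
          rw [h1]
        · refine hzero t x fun a ha => hfar a ?_
          rintro rfl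
          exact hc ha
      have hfun : (fun t => Φ t x) = (fun b : Bool => if a₁.1 = a₀ ∨ b = true then
          max 0 (1 - 3 / ε * dist (y x) (y a₁.1)) else 0) ∘ (fun t : ↥I → Bool => t a₁) := by
        funext t
        exact hval t
      rw [hfun]
      exact continuous_of_discreteTopology.comp (continuous_apply a₁)
    · push Not at hex
      have hfun : (fun t => Φ t x) = fun _ => 0 := by
        funext t
        exact hzero t x fun a _ => hex a
      rw [hfun]
      exact continuous_const
  obtain ⟨Γ, e, he, hsupp⟩ := hX (range Φ) (by rintro _ ⟨t, rfl⟩; exact hΦx t)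
    (isCompact_range hΦt)
  obtain ⟨J, hJc, hJ⟩ := cube (fun t => e ⟨Φ t, t, rfl⟩)
    (he.continuous.comp (hΦt.subtype_mk fun t => ⟨t, rfl⟩)) (fun t => hsupp _)
  have hJ1 := hJ (fun i => decide (i ∈ J)) (fun i => by simp)
  have hJ2 : Φ (fun i => decide (i ∈ J)) = Φ (fun _ => true) :=
    congrArg Subtype.val (he.injective hJ1)
  -- a point outside
  obtain ⟨a, ha, haJ, haa₀⟩ : ∃ a, ∃ ha : a ∈ I, (⟨a, ha⟩ : ↥I) ∉ J ∧ a ≠ a₀ := by
    by_contra hcon
    push Not at hcon
    refine hunc (((hJc.image Subtype.val).insert a₀).mono fun a ha => ?_)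
    by_cases h : (⟨a, ha⟩ : ↥I) ∈ J
    · exact Or.inr ⟨⟨a, ha⟩, h, rfl⟩
    · exact Or.inl (hcon a ha h)
  have h1 : Φ (fun _ => true) a = 1 := by
    have : Metric.infDist (y a) (Ts fun _ => true) = 0 :=
      Metric.infDist_zero_of_mem ⟨⟨a, ha⟩, Or.inr rfl, rfl⟩
    change max 0 (1 - 3 / ε * Metric.infDist (y a) (Ts fun _ => true)) = 1
    rw [this, mul_zero, sub_zero]
    exact max_eq_right zero_le_one
  have h2 : Φ (fun i => decide (i ∈ J)) a = 0 := by
    refine hzero _ a fun b hb => ?_
    have hab : a ≠ b.1 := by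
      rintro rfl
      rcases hb with h | h
      · exact haa₀ h
      · exact haJ (by simpa using h)
    have := hI a ha b.1 b.2 hab
    linarith
  rw [hJ2, h1] at h2
  exact one_ne_zero h2

end Pool.Agent.K3h97.Cor
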