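import Mathlib

/-!
# Sets closed under finitary operations with countably many values
-/

set_option autoImplicit false



namespace Pool.Agent.K3h97.Cor

open Set Cardinal

variable {T : Type} (c : Finset T → Set T)

/-- closed under the operations `c` -/
def Good (G : Set T) : Prop := ∀ s : Finset T, (↑s : Set T) ⊆ G → c s ⊆ G

/-- the set generated by `Z` -/
def gen (Z : Set T) : Set T := ⋂₀ {H | Good c H ∧ Z ⊆ H}

theorem good_gen (Z : Set T) : Good c (gen c Z) := by
  intro s hs
  refine subset_sInter fun H hH => ?_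
  exact hH.1 s (hs.trans (sInter_subset_of_mem hH))

theorem subset_gen (Z : Set T) : Z ⊆ gen c Z := subset_sInter fun _ hH => hH.2

variable {c}

theorem gen_subset {Z H : Set T} (hH : Good c H) (h : Z ⊆ H) : gen c Z ⊆ H :=
  sInter_subset_of_mem ⟨hH, h⟩

theorem gen_mono {Z Z' : Set T} (h : Z ⊆ Z') : gen c Z ⊆ gen c Z' :=
  gen_subset (good_gen c Z') (h.trans (subset_gen c Z'))

theorem good_sUnion {S : Set (Set T)} (hne : S.Nonempty) (hd : DirectedOn (· ⊆ ·) S)
    (hS : ∀ H ∈ S, Good c H) : Good c (⋃₀ S) := by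
  classical
  intro s hs
  have h1 : ∃ H ∈ S, (↑s : Set T) ⊆ H := by
    induction s using Finset.induction_on with
    | empty => obtain ⟨H, hH⟩ := hne; exact ⟨H, hH, by simp⟩
    | insert a s _ ih =>
      rw [Finset.coe_insert] at hs
      obtain ⟨H, hH, hsH⟩ := ih ((subset_insert _ _).trans hs)
      obtain ⟨H', hH', ha⟩ := hs (mem_insert _ _)
      obtain ⟨H'', hH'', h1, h2⟩ := hd H hH H' hH'
      refine ⟨H'', hH'', ?_⟩
      rw [Finset.coe_insert]
      exact insert_subset (h2 ha) (hsH.trans h1)
  obtain ⟨H, hH, hsH⟩ := h1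
  exact (hS H hH s hsH).trans (subset_sUnion_of_mem hH)

theorem mk_gen_le (hc : ∀ s, (c s).Countable) (Z : Set T) : #(gen c Z) ≤ max #Z ℵ₀ := by
  classical
  let E : ℕ → Set T := fun n => Nat.rec Z (fun _ E => E ∪ ⋃ s ∈ {s : Finset T | (↑s : Set T) ⊆ E}, c s) n
  have hE0 : E 0 = Z := rfl
  have hEs : ∀ n, E (n + 1) = E n ∪ ⋃ s ∈ {s : Finset T | (↑s : Set T) ⊆ E n}, c s := fun n => rfl
  set κ := max #Z ℵ₀ with hκ
  have hκ0 : ℵ₀ ≤ κ := le_max_right _ _
  have hcard : ∀ n, #↥(E n) ≤ κ := by
    intro n
    induction n with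
    | zero => rw [hE0]; exact le_max_left _ _
    | succ n ih =>
      rw [hEs]
      refine (mk_union_le _ _).trans ?_
      have h1 : #↥{s : Finset T | (↑s : Set T) ⊆ E n} ≤ κ := by
        have h2 : #↥{s : Finset T | (↑s : Set T) ⊆ E n} ≤ #(List ↥(E n)) := by
          refine mk_le_of_surjective (f := fun l : List ↥(E n) =>
            (⟨(l.map Subtype.val).toFinset, ?_⟩ : {s : Finset T | (↑s : Set T) ⊆ E n})) ?_
          · intro t ht
            simp only [List.coe_toFinset, mem_setOf_eq, List.mem_map] at ht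
            obtain ⟨a, _, rfl⟩ := ht
            exact a.2
          · rintro ⟨s, hs⟩
            refine ⟨s.toList.attach.map fun a => ⟨a.1, hs (by simpa using a.2)⟩, ?_⟩
            apply Subtype.ext
            ext t
            simp
        exact h2.trans ((mk_list_le_max _).trans (max_le hκ0 ih))
      have h3 : #↥(⋃ s ∈ {s : Finset T | (↑s : Set T) ⊆ E n}, c s) ≤ κ := by
        refine (mk_biUnion_le _ _).trans ?_
        refine (mul_le_mul' h1 (ciSup_le' (a := ℵ₀) fun s => ?_)).trans ?_
        · exact (hc s.1).le_aleph0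
        · exact (mul_le_mul' le_rfl hκ0).trans (mul_eq_self hκ0).le
      exact (add_le_add ih h3).trans (add_eq_self hκ0).le
  have hmono : ∀ m n, m ≤ n → E m ⊆ E n := by
    intro m n hmn
    induction n, hmn using Nat.le_induction with
    | base => exact subset_rfl
    | succ n _ ih => rw [hEs]; exact ih.trans subset_union_left
  have hgood : Good c (⋃ n, E n) := by
    intro s hs
    have h1 : ∃ n, (↑s : Set T) ⊆ E n := by
      induction s using Finset.induction_on with
      | empty => exact ⟨0, by simp⟩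
      | insert a s _ ih =>
        rw [Finset.coe_insert] at hs
        obtain ⟨n, hn⟩ := ih ((subset_insert _ _).trans hs)
        obtain ⟨m, hm⟩ := mem_iUnion.1 (hs (mem_insert _ _))
        refine ⟨max m n, ?_⟩
        rw [Finset.coe_insert]
        exact insert_subset (hmono _ _ (le_max_left _ _) hm) (hn.trans (hmono _ _ (le_max_right _ _)))
    obtain ⟨n, hn⟩ := h1
    refine Subset.trans ?_ (subset_iUnion E (n + 1))
    rw [hEs]
    refine Subset.trans ?_ subset_union_right
    exact subset_biUnion_of_mem (u := fun s => c s) hn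
  refine (mk_le_mk_of_subset (gen_subset hgood (subset_iUnion E 0))).trans ?_
  refine (mk_iUnion_le_sum_mk).trans ?_
  refine (sum_le_sum _ (fun _ => κ) hcard).trans ?_
  simp only [sum_const, mk_nat, lift_aleph0, lift_uzero]
  exact (mul_le_mul' hκ0 le_rfl).trans (mul_eq_self hκ0).le

end Pool.Agent.K3h97.Cor
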