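import Pool.Agent.K3h97.Cor.Abs2
import Pool.Agent.K3h97.Cor.Cube

/-!
# Corson compact subspaces of `C_p(X × K)`

Let all compact subspaces of `C_p(X)` be Corson, `K` compact and `S` a compact subspace of
`C_p(X × K)`. All metrizable continuous images of `X` are separable, since otherwise `C_p(X)`
contains an uncountable power of a two-point space. So for finitely many functions `f` in `S` the
functions `f(x, ·)`, `x` in `X`, form separable subsets of `C(K)`, and there is a countable set
`C ⊆ K` which is dense in `K` for the topology generated by the functions `f(x, ·)`, for every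
`x`. Consequently functions in the closure of a subset `A` of `S` which agree on all `X × {k}`, `k`
in a set closed under this operation, are equal. This makes the usual closing off arguments
work: for sets `G` of functions and points of `K` which are closed under certain operations with
countably many values there are retractions of `S` onto the closure of the set of functions in `G`
given by the coordinates of the `Σ`-embeddings of the restrictions to `X × {k}`, `k` in `G`, and a
transfinite induction gives an embedding of `S` into a `Σ`-product.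
-/

set_option autoImplicit false

namespace Pool.Agent.K3h97.Cor

open Set

theorem main {X : Type} [TopologicalSpace X]
    (hX : ∀ S : Set (X → ℝ), (∀ f ∈ S, Continuous f) → IsCompact S →
        ∃ (Γ : Type) (e : S → (Γ → ℝ)), Topology.IsEmbedding e ∧
          ∀ s, (Function.support (e s)).Countable)
    {K : Type} [TopologicalSpace K] [CompactSpace K] (S : Set (X × K → ℝ))
    (hS : ∀ f ∈ S, Continuous f) (hSc : IsCompact S) :
    ∃ (Γ : Type) (e : S → (Γ → ℝ)), Topology.IsEmbedding e ∧
      ∀ s, (Function.support (e s)).Countable := by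
  classical
  have : CompactSpace ↥S := isCompact_iff_compactSpace.1 hSc
  -- the restrictions to `X × {k}`
  let R : K → (X × K → ℝ) → X → ℝ := fun k f x => f (x, k)
  have hR : ∀ k, Continuous (R k) := fun k => continuous_pi fun x => continuous_apply (x, k)
  have hRS : ∀ k, ∃ (Γ : Type) (e : ↥(R k '' S) → (Γ → ℝ)), Topology.IsEmbedding e ∧
      ∀ s, (Function.support (e s)).Countable := by
    intro k
    refine hX (R k '' S) ?_ (hSc.image (hR k))
    rintro _ ⟨f, hf, rfl⟩
    exact (hS f hf).comp (Continuous.prodMk_left k)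
  choose Γ e' he' hs' using hRS
  let e : (k : K) → ↥S → Γ k → ℝ := fun k f => e' k ⟨R k f.1, f.1, f.2, rfl⟩
  have he : ∀ k, Continuous (e k) := fun k =>
    (he' k).continuous.comp (((hR k).comp continuous_subtype_val).subtype_mk _)
  have hinj : ∀ k (f g : ↥S), e k f = e k g → ∀ x, f.1 (x, k) = g.1 (x, k) := by
    intro k f g h x
    exact congrFun (congrArg Subtype.val ((he' k).injective h)) x
  -- countable sets which are dense for the functions in a finite set
  have hcount : ∀ s : Finset (↥S ⊕ K), ∃ C : Set K, C.Countable ∧ ∀ x k,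
      (fun f : {f : ↥S // Sum.inl f ∈ s} => f.1.1 (x, k)) ∈
        closure ((fun k' => fun f : {f : ↥S // Sum.inl f ∈ s} => f.1.1 (x, k')) '' C) := by
    intro s
    have hfin : Finite {f : ↥S // Sum.inl f ∈ s} := by
      have : {f : ↥S | (Sum.inl f : ↥S ⊕ K) ∈ s}.Finite :=
        s.finite_toSet.preimage Sum.inl_injective.injOn
      exact this.to_subtype
    have : Fintype {f : ↥S // Sum.inl f ∈ s} := Fintype.ofFinite _
    let y : X → ({f : ↥S // Sum.inl f ∈ s} → C(K, ℝ)) := fun x f =>
      ContinuousMap.curry ⟨f.1.1, hS _ f.1.2⟩ x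
    have hy : Continuous y := continuous_pi fun f =>
      (ContinuousMap.curry ⟨f.1.1, hS _ f.1.2⟩).continuous
    obtain ⟨t, htc, ht⟩ := metric_image_separable hX y hy
    have hC : ∀ x : X, ∃ C ⊆ (univ : Set K), C.Countable ∧
        (fun k' => fun f : {f : ↥S // Sum.inl f ∈ s} => f.1.1 (x, k')) '' univ ⊆
          closure ((fun k' => fun f : {f : ↥S // Sum.inl f ∈ s} => f.1.1 (x, k')) '' C) :=
      fun x => dense_sub _ univ
    choose C _ hCc hC using hC
    refine ⟨⋃ x ∈ t, C x, htc.biUnion fun x _ => hCc x, fun x k => ?_⟩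
    rw [Metric.mem_closure_iff]
    intro ε hε
    obtain ⟨_, ⟨x', hx', rfl⟩, hd⟩ := Metric.mem_closure_iff.1 (ht x) (ε / 3) (by positivity)
    obtain ⟨_, ⟨k', hk', rfl⟩, hd'⟩ := Metric.mem_closure_iff.1
      (hC x' ⟨k, mem_univ _, rfl⟩) (ε / 3) (by positivity)
    refine ⟨_, ⟨k', mem_biUnion hx' hk', rfl⟩, ?_⟩
    have hclose : ∀ k, dist (fun f : {f : ↥S // Sum.inl f ∈ s} => f.1.1 (x, k))
        (fun f : {f : ↥S // Sum.inl f ∈ s} => f.1.1 (x', k)) ≤ dist (y x) (y x') := by
      intro k
      rw [dist_pi_le_iff dist_nonneg]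
      intro f
      refine le_trans ?_ (dist_le_pi_dist (y x) (y x') f)
      exact ContinuousMap.dist_apply_le_dist (f := y x f) (g := y x' f) k
    have h1 := hclose k
    have h2 := hclose k'
    rw [dist_comm] at h2
    have h3 := dist_triangle4 (fun f : {f : ↥S // Sum.inl f ∈ s} => f.1.1 (x, k))
      (fun f : {f : ↥S // Sum.inl f ∈ s} => f.1.1 (x', k))
      (fun f : {f : ↥S // Sum.inl f ∈ s} => f.1.1 (x', k'))
      (fun f : {f : ↥S // Sum.inl f ∈ s} => f.1.1 (x, k'))
    simp only at hd'
    linarith
  choose c₁ hc₁ hc₁' using hcount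
  refine corson_of he (fun k f => hs' k _) c₁ hc₁ ?_
  intro G hG f hf g hg hfg
  -- `f = g` on `X × {k}` for the points `k` in `G`
  have h1 : ∀ k : K, (Sum.inr k : ↥S ⊕ K) ∈ G → ∀ x, f.1 (x, k) = g.1 (x, k) := by
    intro k hk
    refine hinj k f g ?_
    funext γ
    by_cases hi : (⟨k, γ⟩ : Σ k, Γ k) ∈ D e G
    · exact hfg _ hi
    · have hz : ∀ a ∈ closure (A G), e k a γ = 0 := by
        intro a ha
        have hcl : IsClosed {a : ↥S | e k a γ = 0} :=
          isClosed_eq ((continuous_apply γ).comp (he k)) continuous_const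
        refine closure_minimal (fun b hb => ?_) hcl ha
        by_contra hne
        exact hi ⟨hk, b, hb, hne⟩
      rw [hz f hf, hz g hg]
  apply Subtype.ext
  funext ⟨x, k₀⟩
  -- `π k = (a (x, k))` for `a` in `A G`
  let π : K → (↥(A G) → ℝ) := fun k a => a.1.1 (x, k)
  have hπ : Continuous π := continuous_pi fun a => (hS _ a.1.2).comp (Continuous.prodMk_right x)
  let CG : Set K := {k | (Sum.inr k : ↥S ⊕ K) ∈ G}
  have hcl : π k₀ ∈ closure (π '' CG) := by
    rw [mem_closure_iff]
    intro O hO hk
    rw [isOpen_pi_iff] at hO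
    obtain ⟨I, u, hu, hsub⟩ := hO _ hk
    let s : Finset (↥S ⊕ K) := I.image (fun a => Sum.inl a.1)
    have hs : ∀ a ∈ I, (Sum.inl a.1 : ↥S ⊕ K) ∈ s := fun a ha =>
      Finset.mem_image.2 ⟨a, ha, rfl⟩
    have hsG : (↑s : Set (↥S ⊕ K)) ⊆ G := by
      intro b hb
      obtain ⟨a, _, rfl⟩ := Finset.mem_image.1 (Finset.mem_coe.1 hb)
      exact a.2
    have h2 := hc₁' s x k₀
    rw [mem_closure_iff] at h2
    have hO' : IsOpen {z : {f : ↥S // Sum.inl f ∈ s} → ℝ |
        ∀ a : I, z ⟨a.1.1, hs a.1 a.2⟩ ∈ u a.1} := by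
      have : {z : {f : ↥S // Sum.inl f ∈ s} → ℝ | ∀ a : I, z ⟨a.1.1, hs a.1 a.2⟩ ∈ u a.1} =
          ⋂ a : I, {z : {f : ↥S // Sum.inl f ∈ s} → ℝ | z ⟨a.1.1, hs a.1 a.2⟩ ∈ u a.1} := by
        ext z
        simp
      rw [this]
      exact isOpen_iInter_of_finite fun a => (hu a.1 a.2).1.preimage (continuous_apply _)
    obtain ⟨_, hz, k', hk', rfl⟩ := h2 _ hO' (fun a => (hu a.1 a.2).2)
    exact ⟨π k', hsub fun a ha => hz ⟨a, ha⟩, k', hG s hsG k' hk', rfl⟩
  obtain ⟨k, hk, hkk⟩ : π k₀ ∈ π '' closure CG := by
    have hc : IsClosed (π '' closure CG) := (isClosed_closure.isCompact.image hπ).isClosed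
    exact closure_minimal (image_mono subset_closure) hc hcl
  -- all functions in the closure of `A G` agree at `(x, k)` and `(x, k₀)`
  have h3 : ∀ h ∈ closure (A G), h.1 (x, k) = h.1 (x, k₀) := by
    intro h hh
    have hcl : IsClosed {h : ↥S | h.1 (x, k) = h.1 (x, k₀)} :=
      isClosed_eq ((continuous_apply _).comp continuous_subtype_val)
        ((continuous_apply _).comp continuous_subtype_val)
    refine closure_minimal (fun b hb => ?_) hcl hh
    exact congrFun hkk ⟨b, hb⟩
  have h4 : f.1 (x, k) = g.1 (x, k) := by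
    have hcl : IsClosed {k : K | f.1 (x, k) = g.1 (x, k)} :=
      isClosed_eq ((hS _ f.2).comp (Continuous.prodMk_right x))
        ((hS _ g.2).comp (Continuous.prodMk_right x))
    exact closure_minimal (fun k hk => h1 k hk x) hcl hk
  rw [← h3 f hf, ← h3 g hg, h4]

end Pool.Agent.K3h97.Cor
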